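import Mathlib
import Pool.Agent.W343.FZH.Core
import Pool.Agent.W923.FZH.D
import Pool.Agent.W408.FZH.E

/-!
MP_1b8d20_an. The Feinberg-Zee spectrum and the closure of the union of the periodic spectra differ
at most by bounded components of the complement of the latter: a connected set outside the
periodic part either does not meet the whole spectrum, or it lies in it and is bounded.

Idea of the proof. Outside the periodic part all polynomials `z * phi z c n` of finite windows have
absolute value at least `1` (composition of window polynomials; the eigenvalues of finite windows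
are dense in the unit disc and belong to the periodic part), so their logarithms are nonnegative
harmonic functions. At a point outside the whole spectrum they grow linearly and uniformly in the
length of the window. By the inequalities of Harnack and Schottky the uniform growth passes to
the neighbouring points, hence to a whole component, and it excludes spectrum.
-/

set_option autoImplicit false

namespace Pool.Agent.Results.MP_1b8d20_an.HoleDichotomy

/-- `A_c - z` is a bijection of `ℓ²(ℤ)` onto itself, where `(A_c x) n = c n * x (n - 1) + x (n + 1)`.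
As `A_c` is a bounded operator, this says that `z` is not in its spectrum. -/
def Regular (c : ℤ → ℂ) (z : ℂ) : Prop :=
  ∀ y : ℤ → ℂ, Memℓp y 2 → ∃! x : ℤ → ℂ, Memℓp x 2 ∧
    ∀ n : ℤ, c n * x (n - 1) + x (n + 1) - z * x n = y n

/-- The spectrum of `A_c` on `ℓ²(ℤ)`. -/
def specHop (c : ℤ → ℂ) : Set ℂ := {z : ℂ | ¬ Regular c z}

/-- The Feinberg-Zee spectrum: the union of the spectra of `A_c` over all sequences `c` of
signs. -/
def feinbergZee : Set ℂ := {z : ℂ | ∃ c : ℤ → ℂ, (∀ n, c n = 1 ∨ c n = -1) ∧ z ∈ specHop c}

/-- The periodic part: the closure of the union of the spectra of `A_c` over all periodic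
sequences `c` of signs. -/
def periodicPart : Set ℂ := closure {z : ℂ | ∃ c : ℤ → ℂ, (∀ n, c n = 1 ∨ c n = -1) ∧
  (∃ p : ℕ, 0 < p ∧ ∀ n : ℤ, c (n + (p : ℤ)) = c n) ∧ z ∈ specHop c}

lemma regular_iff (c : ℤ → ℂ) (z : ℂ) :
    Regular c z ↔ Pool.Agent.W681.FZ.Bij z (fun n => c (n + 1)) := by
  unfold Regular Pool.Agent.W681.FZ.Bij
  simp only [sub_add_cancel]

lemma regular_iff' (b : ℤ → ℂ) (z : ℂ) :
    Regular (fun n => b (n - 1)) z ↔ Pool.Agent.W681.FZ.Bij z b := Iff.rfl

lemma feinbergZee_eq : feinbergZee = Pool.Agent.W681.FZ.Sig := by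
  ext z
  constructor
  · rintro ⟨c, hc, hT⟩
    exact ⟨fun n => c (n + 1), fun n => hc _, fun h => hT ((regular_iff c z).2 h)⟩
  · rintro ⟨b, hb, hbad⟩
    exact ⟨fun m => b (m - 1), fun n => hb _, fun h => hbad ((regular_iff' b z).1 h)⟩

lemma periodicPart_eq : periodicPart = closure Pool.Agent.W343.FZH.Per := by
  unfold periodicPart
  congr 1
  ext z
  constructor
  · rintro ⟨c, hc, ⟨p, hp, hper⟩, hT⟩
    refine ⟨fun n => c (n + 1), fun n => hc _, ⟨p, hp, fun n => ?_⟩,
      fun h => hT ((regular_iff c z).2 h)⟩
    show c (n + p + 1) = c (n + 1)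
    rw [← hper (n + 1)]
    congr 1
    ring
  · rintro ⟨b, hb, ⟨p, hp, hper⟩, hbad⟩
    refine ⟨fun m => b (m - 1), fun n => hb _, ⟨p, hp, fun n => ?_⟩,
      fun h => hbad ((regular_iff' b z).1 h)⟩
    show b (n + p - 1) = b (n - 1)
    rw [← hper (n - 1)]
    congr 1
    ring

/-- Every connected set outside the periodic part is either disjoint from the Feinberg-Zee
spectrum, or contained in it and in the closed disc of radius `2`. -/
theorem result (C : Set ℂ) (hC : IsPreconnected C) (hd : Disjoint C periodicPart) :
    Disjoint C feinbergZee ∨ C ⊆ feinbergZee ∩ Metric.closedBall 0 2 := by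
  have hD := Pool.Agent.W923.FZH.partD Pool.Agent.W343.FZH.partC
  have hE := Pool.Agent.W408.FZH.partE
  rw [periodicPart_eq] at hd
  rw [feinbergZee_eq]
  by_cases h : ∃ w ∈ C, w ∉ Pool.Agent.W681.FZ.Sig
  · left
    exact Set.disjoint_left.2
      (Pool.Agent.W343.FZH.alt Pool.Agent.W343.FZH.partC hD hE C hC
        (fun z hz => Set.disjoint_left.1 hd hz) h)
  · right
    push Not at h
    intro w hw
    refine ⟨h w hw, ?_⟩
    rw [Metric.mem_closedBall, dist_zero_right]
    by_contra h3
    push Not at h3
    exact Pool.Agent.W343.FZH.large w h3 (h w hw)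

end Pool.Agent.Results.MP_1b8d20_an.HoleDichotomy
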